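import Pool.Agent.Lib.MP_eee7a8_ag.TB.IfaceA

/-!
# TAGBR group A, module DEVELOP: vectors with prescribed determinants for the Farey edges (helper75)
-/

set_option autoImplicit false
set_option linter.unusedVariables false

open Matrix

namespace Pool.Agent.Lib.MP_eee7a8_ag.TB.ADevelop

/-- The square of the norm of the normalised vector. -/
def nn (b : Cusp) : ℤ := b.x ^ 2 + b.y ^ 2

theorem exists_sign (x y : ℤ) (h : IsCoprime x y) :
    ∃ (c : Cusp) (s : ℤ), (s = 1 ∨ s = -1) ∧ s * c.x = x ∧ s * c.y = y :=
  ⟨Cusp.mk' x y h, _, (mk'_aux x y h).2.2, (mk'_aux x y h).1, (mk'_aux x y h).2.1⟩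

theorem nn_pos (b : Cusp) : 1 ≤ nn b := by
  unfold nn
  rcases b.ne_zero with h | h
  · have : 0 < b.x ^ 2 := by positivity
    nlinarith [sq_nonneg b.y]
  · have : 0 < b.y ^ 2 := by positivity
    nlinarith [sq_nonneg b.x]

theorem nn_one {b : Cusp} (h : nn b ≤ 1) : b = infty ∨ b = zero := by
  unfold nn at h
  have hy : b.y ≤ 1 := by nlinarith [sq_nonneg b.x, sq_nonneg (b.y - 1)]
  rcases b.nrm with h1 | ⟨h1, h2⟩
  · right
    have hy1 : b.y = 1 := by omega
    rw [hy1] at h
    have hx : b.x ^ 2 = 0 := le_antisymm (by linarith) (sq_nonneg _)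
    have hx' : b.x = 0 := by simpa using hx
    exact Cusp.ext hx' hy1
  · left
    exact Cusp.ext h2 h1

/-- `b` is the sum of the signed vectors `s c`, `t d`, which form a basis with acute angle. -/
structure Par (b c d : Cusp) (s t : ℤ) : Prop where
  hs : s = 1 ∨ s = -1
  ht : t = 1 ∨ t = -1
  x : b.x = s * c.x + t * d.x
  y : b.y = s * c.y + t * d.y
  det : s * t * dt c d = 1
  dot : 0 ≤ s * t * (c.x * d.x + c.y * d.y)

theorem exists_par (b : Cusp) (h1 : b ≠ infty) (h2 : b ≠ zero) :
    ∃ c d s t, Par b c d s t := by
  obtain ⟨r, w, hrw⟩ := b.cop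
  set p := b.x with hp
  set q := b.y with hq
  set N := p ^ 2 + q ^ 2 with hN
  have hN1 : nn b = N := rfl
  have hN2 : 2 ≤ N := by
    by_contra hlt
    rcases nn_one (b := b) (by rw [hN1]; omega) with h | h
    · exact h1 h
    · exact h2 h
  set m0 := -w * p + r * q with hm0
  set k := m0 / N with hk
  set m := m0 % N with hm
  have hmk : m0 = N * k + m := (Int.mul_ediv_add_emod m0 N).symm
  have hm1 : 0 ≤ m := Int.emod_nonneg _ (by omega)
  have hm2 : m < N := Int.emod_lt_of_pos _ (by omega)
  set u := -w - k * p with hu
  set v := r - k * q with hv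
  have hdet : p * v - q * u = 1 := by rw [hu, hv]; linear_combination hrw
  have hmu : m = u * p + v * q := by
    rw [hu, hv]
    have : m = m0 - N * k := by linarith
    rw [this, hm0, hN]; ring
  have hlag : N * (u ^ 2 + v ^ 2) = m ^ 2 + 1 := by
    rw [hmu, hN]
    linear_combination (p * v - q * u + 1) * hdet
  have hm3 : m ≠ 0 := by
    intro h0
    rw [h0] at hlag
    have h3 : 0 < u ^ 2 + v ^ 2 := by
      by_contra h4
      have : N * (u ^ 2 + v ^ 2) ≤ 0 := by
        apply mul_nonpos_of_nonneg_of_nonpos <;> omega
      omega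
    nlinarith
  have hdot : 0 ≤ (p - u) * u + (q - v) * v := by
    have h5 : N * ((p - u) * u + (q - v) * v) = m * (N - m) - 1 := by
      have : (p - u) * u + (q - v) * v = m - (u ^ 2 + v ^ 2) := by rw [hmu]; ring
      rw [this, mul_sub, hlag]; ring
    have h6 : 0 ≤ m * (N - m) - 1 := by
      have h7 : 1 ≤ m := by omega
      have h8 : 1 ≤ N - m := by omega
      nlinarith
    by_contra h9
    push Not at h9
    have : N * ((p - u) * u + (q - v) * v) < 0 := mul_neg_of_pos_of_neg (by omega) h9
    omega
  have cd : IsCoprime u v := ⟨-q, p, by linear_combination hdet⟩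
  have cc : IsCoprime (p - u) (q - v) := ⟨v, -u, by linear_combination hdet⟩
  obtain ⟨c, s, hs, hcx, hcy⟩ := exists_sign _ _ cc
  obtain ⟨d, t, ht, hdx, hdy⟩ := exists_sign _ _ cd
  refine ⟨c, d, s, t, hs, ht, ?_, ?_, ?_, ?_⟩
  · rw [hcx, hdx]; ring
  · rw [hcy, hdy]; ring
  · have : s * t * dt c d = (s * c.x) * (t * d.y) - (s * c.y) * (t * d.x) := by
      unfold dt; ring
    rw [this, hcx, hcy, hdx, hdy]
    linear_combination hdet
  · have : s * t * (c.x * d.x + c.y * d.y) = (s * c.x) * (t * d.x) + (s * c.y) * (t * d.y) := by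
      ring
    rw [this, hcx, hcy, hdx, hdy]
    exact hdot

theorem Par.nn_eq {b c d : Cusp} {s t : ℤ} (h : Par b c d s t) :
    nn b = nn c + nn d + 2 * (s * t * (c.x * d.x + c.y * d.y)) := by
  have hs : s * s = 1 := by rcases h.hs with h | h <;> rw [h] <;> norm_num
  have ht : t * t = 1 := by rcases h.ht with h | h <;> rw [h] <;> norm_num
  unfold nn
  rw [h.x, h.y]
  linear_combination (c.x ^ 2 + c.y ^ 2) * hs + (d.x ^ 2 + d.y ^ 2) * ht

theorem Par.lt1 {b c d : Cusp} {s t : ℤ} (h : Par b c d s t) : nn c < nn b := by
  have := h.nn_eq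
  have := h.dot
  have := nn_pos d
  linarith

theorem Par.lt2 {b c d : Cusp} {s t : ℤ} (h : Par b c d s t) : nn d < nn b := by
  have := h.nn_eq
  have := h.dot
  have := nn_pos c
  linarith

/-- A Farey neighbour with norm at most the norm of `b` is one of the two parents. -/
theorem Par.uniq {b c d : Cusp} {s t : ℤ} (h : Par b c d s t) {a : Cusp} (ha : nn a ≤ nn b)
    (hab : |dt a b| = 1) : a = c ∨ a = d := by
  have hs : s * s = 1 := by rcases h.hs with h | h <;> rw [h] <;> norm_num
  have ht : t * t = 1 := by rcases h.ht with h | h <;> rw [h] <;> norm_num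
  have hdet := h.det
  set α := t * dt a d with hα
  set β := s * dt c a with hβ
  have hax : a.x = α * (s * c.x) + β * (t * d.x) := by
    have : a.x * (s * t * dt c d) = α * (s * c.x) + β * (t * d.x) := by
      rw [hα, hβ]; unfold dt; ring
    rw [← this, hdet, mul_one]
  have hay : a.y = α * (s * c.y) + β * (t * d.y) := by
    have : a.y * (s * t * dt c d) = α * (s * c.y) + β * (t * d.y) := by
      rw [hα, hβ]; unfold dt; ring
    rw [← this, hdet, mul_one]
  have hab2 : dt a b = α - β := by
    have e1 : dt a b = s * dt a c + t * dt a d := by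
      unfold dt
      rw [h.x, h.y]; ring
    rw [e1, hα, hβ, dt_symm c a]; ring
  rw [hab2] at hab
  have key : ¬ (2 ≤ α * β) := by
    intro h2
    have hna : nn a = α ^ 2 * nn c + β ^ 2 * nn d +
        2 * (α * β) * (s * t * (c.x * d.x + c.y * d.y)) := by
      unfold nn
      rw [hax, hay]
      linear_combination (α ^ 2 * (c.x ^ 2 + c.y ^ 2)) * hs + (β ^ 2 * (d.x ^ 2 + d.y ^ 2)) * ht
    have hnb := h.nn_eq
    have hdot := h.dot
    have hc := nn_pos c
    have hd := nn_pos d
    generalize s * t * (c.x * d.x + c.y * d.y) = e at *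
    have hαβ : (α - β) ^ 2 = 1 := by
      rw [← sq_abs, hab]; norm_num
    have h3 : 5 ≤ α ^ 2 + β ^ 2 := by nlinarith
    have h4 : α ≠ 0 := by rintro h0; rw [h0] at h2; omega
    have h5 : β ≠ 0 := by rintro h0; rw [h0] at h2; omega
    have h6 : 1 ≤ α ^ 2 := by have : 0 < α ^ 2 := by positivity
                              omega
    have h7 : 1 ≤ β ^ 2 := by have : 0 < β ^ 2 := by positivity
                              omega
    nlinarith [mul_nonneg (sub_nonneg.2 h6) (sub_nonneg.2 hc),
      mul_nonneg (sub_nonneg.2 h7) (sub_nonneg.2 hd), mul_nonneg (sub_nonneg.2 h2) hdot]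
  have hcase : (α = 0 ∧ (β = 1 ∨ β = -1)) ∨ (β = 0 ∧ (α = 1 ∨ α = -1)) := by
    rcases (abs_eq (by norm_num : (0 : ℤ) ≤ 1)).1 hab with h1 | h1
    · have e : α = β + 1 := by omega
      rw [e] at key ⊢
      by_contra hn
      apply key
      have : 1 ≤ β ∨ β ≤ -2 := by omega
      rcases this with h | h <;> nlinarith
    · have e : α = β - 1 := by omega
      rw [e] at key ⊢
      by_contra hn
      apply key
      have : 2 ≤ β ∨ β ≤ -1 := by omega
      rcases this with h | h <;> nlinarith
  rcases hcase with ⟨h0, h1⟩ | ⟨h0, h1⟩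
  · right
    rw [h0, zero_mul, zero_add] at hax hay
    have : β * t = 1 ∨ β * t = -1 := by
      rcases h1 with h1 | h1 <;> rcases h.ht with h2 | h2 <;> rw [h1, h2] <;> norm_num
    exact (Cusp.ext_pm this (by rw [hax]; ring) (by rw [hay]; ring)).symm
  · left
    rw [h0, zero_mul, add_zero] at hax hay
    have : α * s = 1 ∨ α * s = -1 := by
      rcases h1 with h1 | h1 <;> rcases h.hs with h2 | h2 <;> rw [h1, h2] <;> norm_num
    exact (Cusp.ext_pm this (by rw [hax]; ring) (by rw [hay]; ring)).symm

/-! ### The recursion -/

section dev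

variable {K : Type} [Field K] (x : Cusp → Cusp → K)

open Classical in
/-- The developing map. -/
noncomputable def dev (b : Cusp) : Fin 2 → K :=
  if h1 : b = infty then ![1, 0]
  else if h2 : b = zero then ![0, x infty zero]
  else
    have H := exists_par b h1 h2
    have H1 := (H.choose_spec.choose_spec.choose_spec.choose_spec).lt1
    have H2 := (H.choose_spec.choose_spec.choose_spec.choose_spec).lt2
    have h3 := nn_pos H.choose
    have h4 := nn_pos H.choose_spec.choose
    fun i => (x b H.choose_spec.choose * (H.choose_spec.choose_spec.choose : K) *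
        dev H.choose i +
      x b H.choose * (H.choose_spec.choose_spec.choose_spec.choose : K) *
        dev H.choose_spec.choose i) / x H.choose H.choose_spec.choose
termination_by (nn b).toNat
decreasing_by
  · omega
  · omega

theorem dev_par (b : Cusp) (h1 : b ≠ infty) (h2 : b ≠ zero) : ∃ c d s t, Par b c d s t ∧
    ∀ i, dev x b i = (x b d * (s : K) * dev x c i + x b c * (t : K) * dev x d i) / x c d := by
  have H := exists_par b h1 h2
  refine ⟨H.choose, H.choose_spec.choose, H.choose_spec.choose_spec.choose,
    H.choose_spec.choose_spec.choose_spec.choose, H.choose_spec.choose_spec.choose_spec.choose_spec,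
    ?_⟩
  intro i
  rw [dev, dif_neg h1, dif_neg h2]

/-- the determinant of the vectors at `a` and `b` -/
noncomputable def dd (a b : Cusp) : K := dev x a 0 * dev x b 1 - dev x a 1 * dev x b 0

theorem dd_symm (a b : Cusp) : dd x a b = - dd x b a := by
  unfold dd; ring

theorem cast_sign_dt {a b : Cusp} (h : |dt a b| = 1) : ((Int.sign (dt a b) : ℤ) : K) =
    ((dt a b : ℤ) : K) := by
  rcases (abs_eq (by norm_num : (0 : ℤ) ≤ 1)).1 h with h1 | h1 <;> rw [h1] <;> simp

theorem main (hx : ∀ a b, x a b = x b a) (hne : ∀ a b, |dt a b| = 1 → x a b ≠ 0) :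
    ∀ n : ℕ, ∀ b, (nn b).toNat = n → ∀ a, nn a ≤ nn b → |dt a b| = 1 →
      dd x a b = ((dt a b : ℤ) : K) * x a b := by
  intro n
  induction n using Nat.strong_induction_on with
  | _ n ih =>
    intro b hb a hab hdt
    by_cases hb1 : nn b ≤ 1
    · have ha1 : nn a ≤ 1 := hab.trans hb1
      have hne1 : a ≠ b := by
        rintro rfl
        rw [dt_self] at hdt
        simp at hdt
      have e1 : dev x infty = ![1, 0] := by rw [dev]; simp
      have e2 : dev x zero = ![0, x infty zero] := by
        rw [dev]
        have : zero ≠ infty := by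
          intro h
          have := congrArg Cusp.y h
          simp [zero, infty] at this
        simp [this]
      rcases nn_one hb1 with rfl | rfl <;> rcases nn_one ha1 with rfl | rfl
      · exact absurd rfl hne1
      · unfold dd
        rw [e1, e2]
        have : dt zero infty = -1 := by simp [dt, zero, infty]
        rw [this, hx zero infty]
        simp
      · unfold dd
        rw [e1, e2]
        have : dt infty zero = 1 := by simp [dt, zero, infty]
        rw [this]
        simp
      · exact absurd rfl hne1
    · have h1 : b ≠ infty := by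
        rintro rfl
        apply hb1
        simp [nn, infty]
      have h2 : b ≠ zero := by
        rintro rfl
        apply hb1
        simp [nn, zero]
      obtain ⟨c, d, s, t, hP, hdev⟩ := dev_par x b h1 h2
      have hs : s * s = 1 := by rcases hP.hs with h | h <;> rw [h] <;> norm_num
      have ht : t * t = 1 := by rcases hP.ht with h | h <;> rw [h] <;> norm_num
      have hcd : dt c d = s * t := by
        linear_combination (s * t) * hP.det - (dt c d * t * t) * hs - (dt c d) * ht
      have hcd1 : |dt c d| = 1 := by
        rw [hcd]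
        rcases hP.hs with h | h <;> rcases hP.ht with h' | h' <;> rw [h, h'] <;> norm_num
      have hlt1 := hP.lt1
      have hlt2 := hP.lt2
      have hc0 := nn_pos c
      have hd0 := nn_pos d
      have hcd2 : dd x c d = ((s * t : ℤ) : K) * x c d := by
        rcases le_total (nn c) (nn d) with h | h
        · rw [ih (nn d).toNat (by omega) d rfl c h hcd1, hcd]
        · rw [dd_symm, ih (nn c).toNat (by omega) c rfl d h (by rw [dt_abs_symm]; exact hcd1),
            dt_symm d c, hcd, hx d c]
          push_cast; ring
      have hx0 := hne c d hcd1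
      have hsK : (s : K) * s = 1 := by exact_mod_cast congrArg (Int.cast : ℤ → K) hs
      have htK : (t : K) * t = 1 := by exact_mod_cast congrArg (Int.cast : ℤ → K) ht
      rcases hP.uniq hab hdt with rfl | rfl
      · -- a = c
        have e : dd x a b = x b a * (t : K) * dd x a d / x a d := by
          unfold dd
          rw [hdev, hdev]
          field_simp
          ring
        have hdt2 : dt a b = s := by
          have : dt a b = t * dt a d := by
            unfold dt
            rw [hP.x, hP.y]; ring
          rw [this, hcd]; linear_combination s * ht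
        rw [e, hcd2, hdt2, hx b a]
        field_simp
        push_cast
        linear_combination (x a b * (s : K)) * htK
      · have e : dd x a b = x b a * (s : K) * dd x a c / x c a := by
          unfold dd
          rw [hdev, hdev]
          field_simp
          ring
        have hdt2 : dt a b = -t := by
          have : dt a b = s * dt a c := by
            unfold dt
            rw [hP.x, hP.y]; ring
          rw [this, dt_symm a c, hcd]; linear_combination (-t) * hs
        rw [e, dd_symm x a c, hcd2, hdt2, hx b a]
        field_simp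
        push_cast
        linear_combination (-(x a b * (t : K))) * hsK

end dev

end Pool.Agent.Lib.MP_eee7a8_ag.TB.ADevelop

namespace Pool.Agent.Lib.MP_eee7a8_ag.TB

open ADevelop in
/-- MODULE DEVELOP -/
theorem develop : DevelopStatement := by
  intro K _ x hx hne
  refine ⟨dev x, fun a b hab => ?_⟩
  rw [cast_sign_dt hab]
  change dd x a b = _
  rcases le_total (nn a) (nn b) with h | h
  · exact main x hx hne _ b rfl a h hab
  · rw [dd_symm, main x hx hne _ a rfl b h (by rw [dt_abs_symm]; exact hab), dt_symm b a, hx b a]
    push_cast; ring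

end Pool.Agent.Lib.MP_eee7a8_ag.TB
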