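import Pool.Agent.Lib.MP_eee7a8_ag.TB.A.H75.Develop

/-!
# TAGBR group A, module EXTEND: extension to lambda lengths (helper75)
-/

set_option autoImplicit false
set_option linter.unusedVariables false

open Matrix

namespace Pool.Agent.Lib.MP_eee7a8_ag.TB.AExtend

/-- Farey neighbours of `b` on both sides of the geodesic to `a`. -/
theorem exists_split (a b : Cusp) (h : 2 ≤ |dt a b|) : ∃ c d : Cusp, |dt c d| = 1 ∧
    |dt b c| = 1 ∧ |dt b d| = 1 ∧ |dt a c| < |dt a b| ∧ |dt a d| < |dt a b| ∧ Cross a b c d := by
  obtain ⟨r, w, hrw⟩ := b.cop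
  set D := dt a b with hD
  have hD0 : D ≠ 0 := by
    intro h0
    rw [h0] at h
    simp at h
  -- e = (-w, r) has det(b, e) = 1
  set m0 := a.x * r + a.y * w with hm0
  set k := m0 / D with hk
  set m := m0 % D with hm
  have hmk : m0 = D * k + m := (Int.mul_ediv_add_emod m0 D).symm
  have hm1 : 0 ≤ m := Int.emod_nonneg _ hD0
  have hm2 : m < |D| := Int.emod_lt_abs _ hD0
  set u := -w - k * b.x with hu
  set v := r - k * b.y with hv
  have hbc : b.x * v - b.y * u = 1 := by rw [hu, hv]; linear_combination hrw
  have hac : a.x * v - a.y * u = m := by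
    have : m = m0 - D * k := by linarith
    rw [this, hm0, hD, hu, hv]; unfold dt; ring
  have cc : IsCoprime u v := ⟨-b.y, b.x, by linear_combination hbc⟩
  set σ := Int.sign D with hσ
  have hσ1 : σ = 1 ∨ σ = -1 := by
    rcases lt_or_gt_of_ne hD0 with h1 | h1
    · right; exact Int.sign_eq_neg_one_of_neg h1
    · left; exact Int.sign_eq_one_of_pos h1
  have hσD : σ * D = |D| := by rw [hσ, Int.sign_mul_self, Int.abs_eq_natAbs]
  set u' := u - σ * b.x with hu'
  set v' := v - σ * b.y with hv'
  have hbd : b.x * v' - b.y * u' = 1 := by rw [hu', hv']; linear_combination hbc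
  have had : a.x * v' - a.y * u' = m - |D| := by
    rw [← hσD, ← hac, hD, hu', hv']; unfold dt; ring
  have hcd : u * v' - v * u' = σ := by
    rw [hu', hv']; linear_combination σ * hbc
  have cd : IsCoprime u' v' := ⟨-b.y, b.x, by linear_combination hbd⟩
  obtain ⟨c, s, hs, hcx, hcy⟩ := ADevelop.exists_sign _ _ cc
  obtain ⟨d, t, ht, hdx, hdy⟩ := ADevelop.exists_sign _ _ cd
  have hss : s * s = 1 := by rcases hs with h | h <;> rw [h] <;> norm_num
  have htt : t * t = 1 := by rcases ht with h | h <;> rw [h] <;> norm_num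
  have hsabs : |s| = 1 := by rcases hs with h | h <;> rw [h] <;> norm_num
  have htabs : |t| = 1 := by rcases ht with h | h <;> rw [h] <;> norm_num
  have ebc : s * dt b c = 1 := by rw [← hbc, ← hcx, ← hcy]; unfold dt; ring
  have ebd : t * dt b d = 1 := by rw [← hbd, ← hdx, ← hdy]; unfold dt; ring
  have eac : s * dt a c = m := by rw [← hac, ← hcx, ← hcy]; unfold dt; ring
  have ead : t * dt a d = m - |D| := by rw [← had, ← hdx, ← hdy]; unfold dt; ring
  have ecd : s * t * dt c d = σ := by rw [← hcd, ← hcx, ← hcy, ← hdx, ← hdy]; unfold dt; ring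
  have fbc : |dt b c| = 1 := by
    have := congrArg abs ebc
    rwa [abs_mul, hsabs, one_mul, abs_one] at this
  have fbd : |dt b d| = 1 := by
    have := congrArg abs ebd
    rwa [abs_mul, htabs, one_mul, abs_one] at this
  have fac : |dt a c| = m := by
    have := congrArg abs eac
    rwa [abs_mul, hsabs, one_mul, abs_of_nonneg hm1] at this
  have fad : |dt a d| = |D| - m := by
    have := congrArg abs ead
    rw [abs_mul, htabs, one_mul, abs_of_neg (show m - |D| < 0 by linarith)] at this
    rw [this]; ring
  have fcd : |dt c d| = 1 := by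
    have := congrArg abs ecd
    rw [abs_mul, abs_mul, hsabs, htabs, one_mul, one_mul] at this
    rw [this]
    rcases hσ1 with h | h <;> rw [h] <;> norm_num
  have hm3 : m ≠ 0 := by
    intro h0
    rw [h0] at fac
    have h1 : a = c := dt_eq_zero.1 (abs_eq_zero.1 fac)
    rw [h1] at hD
    rw [hD, dt_abs_symm, fbc] at h
    omega
  refine ⟨c, d, fcd, fbc, fbd, by omega, by omega, ?_⟩
  unfold Cross
  have e : dt a c * dt b c * (dt a d * dt b d) =
      (s * dt a c) * (s * dt b c) * ((t * dt a d) * (t * dt b d)) := by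
    linear_combination (-(dt a c * dt b c * (dt a d * dt b d)) * t * t) * hss -
      (dt a c * dt b c * (dt a d * dt b d)) * htt
  rw [e, ebc, ebd, eac, ead]
  have h1 : 1 ≤ m := by omega
  nlinarith

/-- sign of a product in the ring -/
theorem sign_sq {K : Type} [Field K] {n : ℤ} (h : n ≠ 0) :
    ((Int.sign n : ℤ) : K) * ((Int.sign n : ℤ) : K) = 1 := by
  rcases lt_or_gt_of_ne h with h1 | h1
  · rw [Int.sign_eq_neg_one_of_neg h1]; simp
  · rw [Int.sign_eq_one_of_pos h1]; simp

end Pool.Agent.Lib.MP_eee7a8_ag.TB.AExtend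

namespace Pool.Agent.Lib.MP_eee7a8_ag.TB

open ADevelop AExtend in
/-- MODULE EXTEND -/
theorem extend : ExtendStatement := by
  intro G K _ x hx hne hinv
  obtain ⟨W, hW⟩ := develop K x hx hne
  set D : Cusp → Cusp → K := fun a b => W a 0 * W b 1 - W a 1 * W b 0 with hD
  set sg : Cusp → Cusp → K := fun a b => ((Int.sign (dt a b) : ℤ) : K) with hsg
  set lam : Cusp → Cusp → K := fun a b => sg a b * D a b with hlam
  have hsymm : ∀ a b, lam a b = lam b a := by
    intro a b
    simp only [hlam, hsg, hD]
    rw [dt_symm a b, Int.sign_neg]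
    push_cast
    ring
  have hself : ∀ a, lam a a = 0 := by
    intro a
    simp only [hlam, hsg, dt_self, Int.sign_zero, Int.cast_zero, zero_mul]
  have hedge : ∀ a b, |dt a b| = 1 → lam a b = x a b := by
    intro a b h
    have h0 : dt a b ≠ 0 := by
      intro h0; rw [h0] at h; simp at h
    simp only [hlam, hsg, hD]
    rw [hW a b h, ← mul_assoc, sign_sq h0, one_mul]
  have hptol : ∀ a b c d, Cross a b c d →
      lam a b * lam c d = lam a c * lam b d + lam a d * lam b c := by
    intro a b c d h
    have hne' := h.ne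
    have nab := dt_ne_zero hne'.1
    have nac := dt_ne_zero hne'.2.1
    have nad := dt_ne_zero hne'.2.2.1
    have nbc := dt_ne_zero hne'.2.2.2.1
    have nbd := dt_ne_zero hne'.2.2.2.2.1
    have ncd := dt_ne_zero hne'.2.2.2.2.2
    have hp := plucker a b c d
    unfold Cross at h
    have h1 : (dt a c * dt b d) * (dt a d * dt b c) < 0 := by nlinarith
    have hs1 : Int.sign (dt a b) * Int.sign (dt c d) = Int.sign (dt a c) * Int.sign (dt b d) := by
      rw [← Int.sign_mul, ← Int.sign_mul]
      rcases lt_or_gt_of_ne (mul_ne_zero nac nbd) with h2 | h2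
      · rw [Int.sign_eq_neg_one_of_neg h2, Int.sign_eq_neg_one_of_neg]
        nlinarith
      · rw [Int.sign_eq_one_of_pos h2, Int.sign_eq_one_of_pos]
        nlinarith
    have hs2 : Int.sign (dt a b) * Int.sign (dt c d) =
        -(Int.sign (dt a d) * Int.sign (dt b c)) := by
      rw [← Int.sign_mul, ← Int.sign_mul]
      rcases lt_or_gt_of_ne (mul_ne_zero nad nbc) with h2 | h2
      · rw [Int.sign_eq_neg_one_of_neg h2, Int.sign_eq_one_of_pos]
        · norm_num
        · nlinarith
      · rw [Int.sign_eq_one_of_pos h2, Int.sign_eq_neg_one_of_neg]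
        nlinarith
    have ks1 : sg a b * sg c d = sg a c * sg b d := by
      simp only [hsg]; exact_mod_cast congrArg (Int.cast : ℤ → K) hs1
    have ks2 : sg a b * sg c d = -(sg a d * sg b c) := by
      simp only [hsg]; exact_mod_cast congrArg (Int.cast : ℤ → K) hs2
    have hpK : D a b * D c d = D a c * D b d - D a d * D b c := by
      simp only [hD]; ring
    simp only [hlam]
    linear_combination (sg a b * sg c d) * hpK + (D a c * D b d) * ks1 - (D a d * D b c) * ks2
  refine ⟨lam, hsymm, hself, ?_, hptol, hedge⟩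
  have key : ∀ n : ℕ, ∀ g ∈ G, ∀ a b, (|dt a b|).toNat = n → lam (g • a) (g • b) = lam a b := by
    intro n
    induction n using Nat.strong_induction_on with
    | _ n ih =>
      intro g hg a b hn
      rcases lt_trichotomy |dt a b| 1 with h | h | h
      · have h0 : |dt a b| = 0 := by
          have := abs_nonneg (dt a b)
          omega
        have : a = b := dt_eq_zero.1 (abs_eq_zero.1 h0)
        rw [this, hself, hself]
      · rw [hedge a b h, hedge _ _ (by rw [abs_dt_smul]; exact h), hinv g hg]
      · obtain ⟨c, d, h1, h2, h3, h4, h5, h6⟩ := exists_split a b (by omega)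
        have e1 := hptol a b c d h6
        have e2 := hptol _ _ _ _ ((cross_smul g a b c d).2 h6)
        have hn1 := abs_nonneg (dt a c)
        have hn2 := abs_nonneg (dt a d)
        rw [ih _ (by omega) g hg a c rfl, ih _ (by omega) g hg a d rfl,
          ih _ (by omega) g hg b c rfl, ih _ (by omega) g hg b d rfl,
          ih _ (by omega) g hg c d rfl, ← e1] at e2
        have h0 : lam c d ≠ 0 := by rw [hedge c d h1]; exact hne c d h1
        exact mul_right_cancel₀ h0 e2
  intro g hg a b
  exact key _ g hg a b rfl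

end Pool.Agent.Lib.MP_eee7a8_ag.TB
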